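import Pool.Agent.Helper18.BI.R.StR

/-!
# Project BI, stage 4 (R), module SMG: smoothing relative to the boundary
-/

set_option autoImplicit false

open scoped Manifold ContDiff Topology ComplexConjugate
open Set Filter Pool.Agent.Helper65.Barb Pool.Agent.Helper18.BI Pool.Agent.Helper18.BI.R
open Pool.Agent.Helper27.H (ArcD)

namespace Pool.Agent.Helper34.BI.R

/-- soft truncation -/
noncomputable def trc (δ : ℝ) (v : R4) : R4 := (max (‖v‖ - δ) 0 / max ‖v‖ δ) • v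

theorem continuous_trc {δ : ℝ} (hδ : 0 < δ) : Continuous (trc δ) := by
  have h1 : Continuous fun v : R4 => max (‖v‖ - δ) 0 / max ‖v‖ δ := by
    refine Continuous.div ?_ ?_ fun v => ?_
    · fun_prop
    · fun_prop
    · exact (lt_of_lt_of_le hδ (le_max_right _ _)).ne'
  exact h1.smul continuous_id

theorem trc_eq_zero {δ : ℝ} {v : R4} (h : ‖v‖ ≤ δ) : trc δ v = 0 := by
  unfold trc
  rw [max_eq_right (by linarith : ‖v‖ - δ ≤ 0), zero_div, zero_smul]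

theorem norm_trc_sub {δ : ℝ} (hδ : 0 < δ) (v : R4) : ‖trc δ v - v‖ ≤ δ := by
  rcases le_or_gt ‖v‖ δ with h | h
  · rw [trc_eq_zero h, zero_sub, norm_neg]
    exact h
  · have hv : 0 < ‖v‖ := hδ.trans h
    unfold trc
    rw [max_eq_left (by linarith : 0 ≤ ‖v‖ - δ), max_eq_left h.le]
    have e : ((‖v‖ - δ) / ‖v‖) • v - v = (-(δ / ‖v‖)) • v := by
      rw [← sub_eq_zero, sub_sub, ← one_smul ℝ v, smul_smul, smul_smul, ← add_smul, ← sub_smul]
      have : (‖(1 : ℝ) • v‖ - δ) / ‖(1 : ℝ) • v‖ * 1 - (1 + -(δ / ‖(1 : ℝ) • v‖) * 1) = 0 := by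
        rw [one_smul]
        field_simp
        ring
      rw [this, zero_smul]
    rw [e, norm_smul, norm_neg, Real.norm_eq_abs, abs_of_pos (div_pos hδ hv),
      div_mul_cancel₀ _ hv.ne']

theorem m_SMG : StSMG := by
  intro D c₀ c₁ h₀ h₁ ⟨H, hH, hH01, hHU⟩
  have hm : D.m₀ < D.m₁ := D.h₁
  -- the linear interpolation
  let τ : ℝ → ℝ := fun u => step (3 * u - 1)
  have hτ : ContDiff ℝ ∞ τ := contDiff_step.comp (by fun_prop)
  have hτ0 : τ 0 = 0 := step_of_nonpos (by norm_num)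
  have hτ1 : τ 1 = 1 := step_of_one_le (by norm_num)
  let S : ℝ × ℝ × ℝ → R4 := fun z => (1 - τ z.1) • c₀ z.2.1 z.2.2 + τ z.1 • c₁ z.2.1 z.2.2
  have hS : ContDiff ℝ ∞ S := by
    have a0 : ContDiff ℝ ∞ (fun z : ℝ × ℝ × ℝ => c₀ z.2.1 z.2.2) := h₀.smooth.comp contDiff_snd
    have a1 : ContDiff ℝ ∞ (fun z : ℝ × ℝ × ℝ => c₁ z.2.1 z.2.2) := h₁.smooth.comp contDiff_snd
    have a2 : ContDiff ℝ ∞ (fun z : ℝ × ℝ × ℝ => τ z.1) := hτ.comp contDiff_fst
    exact ((contDiff_const.sub a2).smul a0).add (a2.smul a1)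
  have hS0 : ∀ q s, S (0, q, s) = c₀ q s := fun q s => by
    show (1 - τ 0) • c₀ q s + τ 0 • c₁ q s = _
    rw [hτ0, sub_zero, one_smul, zero_smul, add_zero]
  have hS1 : ∀ q s, S (1, q, s) = c₁ q s := fun q s => by
    show (1 - τ 1) • c₀ q s + τ 1 • c₁ q s = _
    rw [hτ1, sub_self, one_smul, zero_smul, zero_add]
  have hSc : ∀ u q s, c₀ q s = D.c s → c₁ q s = D.c s → S (u, q, s) = D.c s := fun u q s e0 e1 => by
    show (1 - τ u) • c₀ q s + τ u • c₁ q s = _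
    rw [e0, e1, ← add_smul, sub_add_cancel, one_smul]
  -- the cube
  let C : Set (ℝ × ℝ × ℝ) := Icc (0 : ℝ) 1 ×ˢ (Icc (0 : ℝ) 1 ×ˢ Icc D.m₀ D.m₁)
  let O : Set (ℝ × ℝ × ℝ) := Ioo (0 : ℝ) 1 ×ˢ (Ioo (0 : ℝ) 1 ×ˢ Ioo D.m₀ D.m₁)
  have hC : IsCompact C := isCompact_Icc.prod (isCompact_Icc.prod isCompact_Icc)
  have hO : IsOpen O := isOpen_Ioo.prod (isOpen_Ioo.prod isOpen_Ioo)
  have hOC : O ⊆ C := prod_mono Ioo_subset_Icc_self (prod_mono Ioo_subset_Icc_self Ioo_subset_Icc_self)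
  have hbd : ∀ z ∈ C, z ∉ O → H z = S z := by
    rintro ⟨u, q, s⟩ ⟨hu, hq, hs⟩ hz
    have h2 : u = 0 ∨ u = 1 ∨ q = 0 ∨ q = 1 ∨ s = D.m₀ ∨ s = D.m₁ := by
      by_contra hne
      push Not at hne
      obtain ⟨n1, n2, n3, n4, n5, n6⟩ := hne
      exact hz ⟨⟨lt_of_le_of_ne hu.1 (Ne.symm n1), lt_of_le_of_ne hu.2 n2⟩,
        ⟨lt_of_le_of_ne hq.1 (Ne.symm n3), lt_of_le_of_ne hq.2 n4⟩,
        ⟨lt_of_le_of_ne hs.1 (Ne.symm n5), lt_of_le_of_ne hs.2 n6⟩⟩
    rcases h2 with rfl | rfl | h2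
    · rw [hS0, (hH01 q hq s hs).1]
    · rw [hS1, (hH01 q hq s hs).2]
    · rw [(hHU u hu q hq s hs).2 h2]
      rcases h2 with rfl | rfl | rfl | rfl
      · rw [hSc _ _ _ (h₀.start s) (h₁.start s)]
      · rw [hSc _ _ _ (h₀.stop s) (h₁.stop s)]
      · rw [hSc _ _ _ (h₀.froz q hq _ (Or.inl le_rfl)) (h₁.froz q hq _ (Or.inl le_rfl))]
      · rw [hSc _ _ _ (h₀.froz q hq _ (Or.inr le_rfl)) (h₁.froz q hq _ (Or.inr le_rfl))]
  -- the difference
  classical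
  let E : ℝ × ℝ × ℝ → R4 := fun z => if z ∈ O then H z - S z else 0
  have hE0 : ∀ z, z ∉ O → E z = 0 := fun z hz => if_neg hz
  have hE1 : ∀ z ∈ C, E z = H z - S z := by
    intro z hz
    by_cases h2 : z ∈ O
    · exact if_pos h2
    · rw [hE0 z h2, hbd z hz h2, sub_self]
  have hE : Continuous E := by
    rw [← continuousOn_univ]
    have h2 : (univ : Set (ℝ × ℝ × ℝ)) = C ∪ Oᶜ := by
      ext z
      simp only [mem_univ, mem_union, mem_compl_iff, true_iff]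
      by_cases h3 : z ∈ O
      · exact Or.inl (hOC h3)
      · exact Or.inr h3
    rw [h2]
    refine ContinuousOn.union_of_isClosed ?_ ?_ hC.isClosed hO.isClosed_compl
    · exact (hH.sub hS.continuous.continuousOn).congr hE1
    · exact continuousOn_const.congr hE0
  -- the distance
  have hHC : IsCompact (H '' C) := hC.image_of_continuousOn hH
  have hHCU : H '' C ⊆ D.U := by
    rintro _ ⟨⟨u, q, s⟩, ⟨hu, hq, hs⟩, rfl⟩
    exact (hHU u hu q hq s hs).1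
  obtain ⟨κ, hκ, hκU⟩ := hHC.exists_thickening_subset_open D.openU hHCU
  obtain ⟨δ, hδ, hδκ⟩ : ∃ δ : ℝ, 0 < δ ∧ 2 * δ < κ := ⟨κ / 4, by positivity, by linarith⟩
  -- the truncated function
  let g : ℝ × ℝ × ℝ → R4 := fun z => S z + trc δ (E z)
  have hg : Continuous g := hS.continuous.add ((continuous_trc hδ).comp hE)
  have hgS : ∀ z, ‖E z‖ ≤ δ → g z = S z := fun z hz => by
    show S z + trc δ (E z) = S z
    rw [trc_eq_zero hz, add_zero]
  have hgH : ∀ z ∈ C, ‖g z - H z‖ ≤ δ := by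
    intro z hz
    have h2 : g z - H z = trc δ (E z) - E z := by
      show S z + trc δ (E z) - H z = trc δ (E z) - E z
      rw [hE1 z hz]
      abel
    rw [h2]
    exact norm_trc_sub hδ _
  obtain ⟨c, hc, hcg, hce, -⟩ := hg.exists_contDiff_approx_and_eqOn ⊤ (ε := fun _ => δ)
    continuous_const (fun _ => hδ) (S := Oᶜ) (U := {z | ‖E z‖ < δ}) hO.isClosed_compl
    ((isOpen_lt hE.norm continuous_const).mem_nhdsSet.2 fun z hz => by
      show ‖E z‖ < δ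
      rw [hE0 z hz, norm_zero]
      exact hδ) (hS.contDiffOn.congr fun z hz => hgS z (le_of_lt hz))
  have hcs : ContDiff ℝ ∞ c := hc
  have hcS : ∀ z, z ∉ O → c z = S z := fun z hz => by
    rw [hce hz, hgS z (by rw [hE0 z hz, norm_zero]; exact hδ.le)]
  refine ⟨c, ⟨hcs, ?_, ?_, ?_, ?_⟩, fun q s => ?_, fun q s => ?_⟩
  · intro u hu q hq s hs
    rw [hcS _ fun h2 => ?_]
    · exact hSc _ _ _ (h₀.froz q hq s hs) (h₁.froz q hq s hs)
    · have h3 := h2.2.2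
      rcases hs with hs | hs
      · exact absurd h3.1 (not_lt.2 hs)
      · exact absurd h3.2 (not_lt.2 hs)
  · intro u hu q hq s hs
    have hz : (u, q, s) ∈ C := ⟨hu, hq, hs⟩
    apply hκU
    rw [Metric.mem_thickening_iff]
    refine ⟨H (u, q, s), mem_image_of_mem _ hz, ?_⟩
    have h2 := hcg (u, q, s)
    have h3 := hgH _ hz
    rw [← dist_eq_norm] at h3
    calc dist (c (u, q, s)) (H (u, q, s)) ≤ dist (c (u, q, s)) (g (u, q, s)) +
          dist (g (u, q, s)) (H (u, q, s)) := dist_triangle _ _ _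
      _ < κ := by linarith
  · intro u hu s
    rw [hcS _ fun h2 => absurd h2.2.1.1 (lt_irrefl _)]
    exact hSc _ _ _ (h₀.start s) (h₁.start s)
  · intro u hu s
    rw [hcS _ fun h2 => absurd h2.2.1.2 (lt_irrefl _)]
    exact hSc _ _ _ (h₀.stop s) (h₁.stop s)
  · rw [hcS _ fun h2 => absurd h2.1.1 (lt_irrefl _), hS0]
  · rw [hcS _ fun h2 => absurd h2.1.2 (lt_irrefl _), hS1]

end Pool.Agent.Helper34.BI.R
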